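import Mathlib
import Pool.Agent.helper67.RG.Real
import Pool.Agent.helper82.CH.AllA

/-!
# MP_2e0e07_nt: a criterion for geometric origin by one algebraic relation, or by fields, over the
absolute Galois group of a number field

Let `K`, `E` be number fields, `G_K = Gal(AlgebraicClosure K/K)` with the Krull topology, `v` the
finite places of `K` (`Pl K`: the nonzero prime ideals of the integers), `q_v = nv K v` the norm,
`frob K v ⊆ G_K` the set of the arithmetic Frobenius elements (`s x ≡ x ^ q_v` modulo a prime ideal
over `v` of the ring of all algebraic integers). `P i v` (`i = 1, ..., r`) and `Q v` are polynomials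
over `E` (for the question: `K` imaginary quadratic, `P i v` the Frobenius polynomials of the duals
`V i` of cohomology groups of varieties over `K`, `Q v = X² - a_v X + ε_v q_v ^ s` the Hecke
polynomials of a Bianchi newform of weight `s + 1` without CM with coefficients in `E`; a `P i v` of
degree one, for instance for `det ρ`, is not restricted).

Hypothesis on the polynomials: either weight two (`IsWeightTwo`: `s = 1`, for almost all `v`
`Q v = X² - a_v X + ε_v q_v`, `a_v` integral, and the `P i v` with `n i ≥ 2` are pure of weight
`w i ≤ 1`; no condition on the `a_v`), or there is a good set of places (`IsGoodSet`, in any weight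
`s`, `w i ≤ s`: not negligible in any open subgroup, and at its places `a_v` is prime to `q_v` (or
`s = 1` and `v` is unramified)).

Theorem. Let `(F, V, ρ)` be a realisation: `F` an algebraically closed Hausdorff topological field of
characteristic zero containing `E`, `V i` and `ρ` continuous representations of `G_K` over `F` with
these Frobenius polynomials, `ρ` irreducible on every open subgroup. The following are equivalent.
* `Arises V ρ`: `ρ` itself is a subquotient of `V i ⊗ F[Fin N]` for some `i` and some permutation
  representation with open kernel, that is, of the (dual) cohomology of `X ×_K Spec L`, `L` a finite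
  etale `K`-algebra: `ρ` arises from etale cohomology.
* There are an open subgroup `U`, a finite set `T` and a polynomial `Φ(T, x)` over `E` such that for
  ALL `v ∉ T` with a Frobenius element in `U`, after substitution of the coefficients of the `P i v`
  for `x`, `Φ` is nonzero and has the root `a_v`.
* The same, with a nonempty open subset `U` of `G_K` (for instance a conjugacy class in the group of
  a finite Galois extension of `K`) and only for the `v` of prime norm.
* The same for all `v` in a set `S` which is not negligible (Haar measure).
* (for `V i` over `ℚ_p`, `ρ` over a finite extension) The fields cut out by the `V i` and by `ad ρ`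
  have an intersection of infinite degree over `K`.
The relations do not involve `F`: so if one realisation arises (one `p`), all of them do (all `p`).

Proof. (1) The relation gives the coefficients of `ad0 ρ` in the algebra of the coefficients of
`V = ⊕ V i` on an open subgroup (`AlgebraicRelation`); so does the condition on the fields (Lie
algebras of compact `p`-adic groups, helper55/FLD). (2) Structure (helper67/RG/Spec, Asm1-4): the
derivations of the algebra of `V ⊕ ρ` which commute with left translations form a Lie algebra;
on the composition factors `W` of `V` its trace free part has trivial radical (Lie's theorem and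
strong irreducibility) and maps onto `sl₂`, so by the Killing form `sl₂` acts on the `W`,
compatibly with `ad ρ`. (3) If `e` does not act with square zero, two eigenvalues `γ`, `γ'` of a
Frobenius satisfy `α² γ = β² γ'`; then `α⁴` and `β⁴` are divisible by `q`, so `a_v ^ 8` is, which is
impossible in the ordinary case and gives `a_v = 0` in weight two by archimedean bounds. So
`e² = f² = 0`, the `2 × 2` matrices act, and `W = ρ ⊗ M` or `sl₂` acts by zero. (4) `tr ρ` is
transcendental over the coefficients of the other factors, of the `M` and of `det ρ` (derivations);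
so for almost all `v` the trace `t_v` of `M` is in `E`, it is an algebraic integer (in weight two:
`q t_v²` is, and `q` is unramified) with all absolute values at most `dim M`: finitely many values,
so it is constant on an open subgroup and `M` is trivial there (helper10/RG). (5) Chebotarev's
theorem for the places of degree one is proved in Lean (`Pool.Agent.CH.CHEB_all`, with the analytic
continuation of Hecke's L-functions), and from it the density of the Frobenius elements in `G_K`
(`Pool.Agent.GK`): so the sets of places used above are not negligible, and in weight two the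
places of degree one, unramified in `E`, are a good set.
-/

namespace Pool.Agent.RG.GeoReal

open Matrix Polynomial Pool.Agent.GO Pool.Agent.AR Pool.Agent.RG Pool.Agent.GK MeasureTheory

theorem result {K E : Type} [Field K] [NumberField K] [Field E] [NumberField E]
    [MeasurableSpace (GalK K)] [BorelSpace (GalK K)] (μ : Measure (GalK K)) [μ.IsHaarMeasure]
    {r : ℕ} {n : Fin r → ℕ} (P : Fin r → Pl K → E[X]) (Q : Pl K → E[X]) (w : Fin r → ℕ)
    -- weight two, or a good set of places
    (hO : IsWeightTwo K n P Q w ∨ ∃ (s : ℕ) (O : Set (Pl K)),
      IsGoodSet μ (frob K) n P Q (nv K) s w O) :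
    -- every realisation: geometric origin is equivalent to a relation
    (∀ {F : Type*} [Field F] [IsAlgClosed F] [CharZero F] [TopologicalSpace F]
      [IsTopologicalRing F] [T2Space F] (ι : E →+* F)
      (V : (i : Fin r) → GalK K →* Matrix (Fin (n i)) (Fin (n i)) F)
      (ρ : GalK K →* Matrix (Fin 2) (Fin 2) F), IsRealisation (frob K) P Q ι V ρ →
      List.TFAE [Arises V ρ,
        ∃ (U : Subgroup (GalK K)) (T : Set (Pl K)) (Φ : (MvPolynomial (Fin r × ℕ) E)[X]),
          IsOpen (U : Set (GalK K)) ∧ T.Finite ∧ IsRelation P Q (frobIn K U T) Φ,
        ∃ (U : Set (GalK K)) (T : Set (Pl K)) (Φ : (MvPolynomial (Fin r × ℕ) E)[X]),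
          IsOpen U ∧ U.Nonempty ∧ T.Finite ∧ IsRelation P Q (frobIn1 K U T) Φ,
        ∃ (S : Set (Pl K)) (Φ : (MvPolynomial (Fin r × ℕ) E)[X]), NonNegl μ (frob K) S ∧
          IsRelation P Q S Φ]) ∧
    -- if one realisation arises then all realisations do
    (∀ {F F' : Type*} [Field F] [IsAlgClosed F] [CharZero F] [TopologicalSpace F]
      [IsTopologicalRing F] [T2Space F] [Field F'] [IsAlgClosed F'] [CharZero F']
      [TopologicalSpace F'] [IsTopologicalRing F'] [T2Space F'] (ι : E →+* F) (ι' : E →+* F')
      (V : (i : Fin r) → GalK K →* Matrix (Fin (n i)) (Fin (n i)) F)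
      (ρ : GalK K →* Matrix (Fin 2) (Fin 2) F)
      (V' : (i : Fin r) → GalK K →* Matrix (Fin (n i)) (Fin (n i)) F')
      (ρ' : GalK K →* Matrix (Fin 2) (Fin 2) F'), IsRealisation (frob K) P Q ι V ρ →
      IsRealisation (frob K) P Q ι' V' ρ' → Arises V ρ → Arises V' ρ') ∧
    -- every p-adic realisation: and to the infinite intersection of the fields
    ∀ (p : ℕ) [Fact p.Prime] (F Ω : Type) [NormedField F] [NormedAlgebra ℚ_[p] F]
      [FiniteDimensional ℚ_[p] F] [Field Ω] [IsAlgClosed Ω] [Algebra F Ω] [TopologicalSpace Ω]
      [IsTopologicalRing Ω] [T2Space Ω] (ι : E →+* Ω)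
      (V : (i : Fin r) → GalK K →* Matrix (Fin (n i)) (Fin (n i)) ℚ_[p])
      (ρ : GalK K →* Matrix (Fin 2) (Fin 2) F), (∀ i, Continuous (V i)) → Continuous ρ →
      IsRealisation (frob K) P Q ι
        (fun i => bc ((algebraMap F Ω).comp (algebraMap ℚ_[p] F)) (V i))
        (bc (algebraMap F Ω) ρ) →
      (Arises (fun i => bc ((algebraMap F Ω).comp (algebraMap ℚ_[p] F)) (V i))
          (bc (algebraMap F Ω) ρ) ↔
        ¬ FiniteDimensional K
          (fieldV V ⊓ fieldAd ρ : IntermediateField K (AlgebraicClosure K))) :=
  ⟨fun ι V ρ hR => Real.main1 Pool.Agent.CH.CHEB_all μ P Q w hO ι V ρ hR,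
    fun ι ι' V ρ V' ρ' hR hR' h =>
      ((Real.main1 Pool.Agent.CH.CHEB_all μ P Q w hO ι' V' ρ' hR').out 0 3).2
        (((Real.main1 Pool.Agent.CH.CHEB_all μ P Q w hO ι V ρ hR).out 0 3).1 h),
    fun p _ F Ω _ _ _ _ _ _ _ _ _ ι V ρ hV hρ hR =>
      Real.main2 Pool.Agent.CH.CHEB_all μ P Q w hO p F Ω ι V ρ hV hρ hR⟩

end Pool.Agent.RG.GeoReal
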